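import Mathlib
import Pool.Agent.J4H39.W1
import Pool.Agent.J4H26.SI.Stm

set_option autoImplicit false

namespace Pool.Agent.J4H86.SI

open Finset Filter Real
open Pool.Agent.J4H39 (T od)
open Pool.Agent.J4H26.SI (S_NUM)

theorem flip (m : ℕ) (x : ℤ) : od m (2 ^ m + x) = od m x ∧
    Pool.Agent.J4H39.pr m (2 ^ m + x) + Pool.Agent.J4H39.pr m x = 1 := by
  obtain ⟨h1, h2, -⟩ := Pool.Agent.J4H39.iter_add m x 1
  rw [mul_one, add_comm x] at h1 h2
  refine ⟨h2, ?_⟩
  rw [mul_one] at h1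
  have h3 : (3 : ℤ) ^ od m x % 2 = 1 := by
    have : Odd ((3 : ℤ) ^ od m x) := Odd.pow (by decide)
    exact Int.odd_iff.1 this
  rcases Pool.Agent.J4H39.pr_cases m (2 ^ m + x) with ⟨a1, a2⟩ | ⟨a1, a2⟩ <;>
  rcases Pool.Agent.J4H39.pr_cases m x with ⟨b1, b2⟩ | ⟨b1, b2⟩ <;> rw [a1, b1] <;> rw [h1] at a2 <;> omega

theorem count (m : ℕ) : ∀ D : ℕ, #((Finset.range (2 ^ m)).filter fun c : ℕ => od m (c : ℤ) = D) = m.choose D := by
  induction m with
  | zero =>
    intro D
    cases D with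
    | zero => simp [od]
    | succ D => simp [od]
  | succ m ih =>
    intro D
    rw [Finset.card_filter, pow_succ, mul_two, Finset.sum_range_add]
    have e : ∀ c : ℕ, ((if od (m + 1) ((c : ℕ) : ℤ) = D then 1 else 0) + (if od (m + 1) ((2 ^ m + c : ℕ) : ℤ) = D then 1 else 0) : ℕ)
        = (if od m (c : ℤ) = D then 1 else 0) + (if od m (c : ℤ) + 1 = D then 1 else 0) := by
      intro c
      obtain ⟨f1, f2⟩ := flip m c
      have g1 := Pool.Agent.J4H39.pr_le m (c : ℤ)
      push_cast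
      rw [Pool.Agent.J4H39.od_succ, Pool.Agent.J4H39.od_succ, f1]
      rcases Pool.Agent.J4H39.pr_cases m (c : ℤ) with ⟨b1, -⟩ | ⟨b1, -⟩
      · rw [b1] at f2 ⊢
        rw [show Pool.Agent.J4H39.pr m (2 ^ m + (c : ℤ)) = 1 by omega]
        simp
      · rw [b1] at f2 ⊢
        rw [show Pool.Agent.J4H39.pr m (2 ^ m + (c : ℤ)) = 0 by omega]
        simp [add_comm]
    rw [← Finset.sum_add_distrib, Finset.sum_congr rfl fun c _ => e c, Finset.sum_add_distrib, ← Finset.card_filter,
      ← Finset.card_filter, ih D]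
    cases D with
    | zero => simp
    | succ D =>
      have : (Finset.range (2 ^ m)).filter (fun c : ℕ => od m (c : ℤ) + 1 = D + 1) = (Finset.range (2 ^ m)).filter (fun c : ℕ => od m (c : ℤ) = D) := by
        apply Finset.filter_congr
        intro c _
        omega
      rw [this, ih D, Nat.choose_succ_succ, add_comm]

theorem central (m D' D : ℕ) (h0 : 0 < D') (h1 : 2 * D' ≤ m) (h2 : D' = D ∨ D' + D = m) : (2 : ℝ) ^ (2 * D' : ℝ) / m ≤ m.choose D := by
  have e1 : m.choose D = m.choose D' := by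
    rcases h2 with h2 | h2
    · rw [h2]
    · rw [← Nat.choose_symm (n := m) (k := D') (by omega)]
      congr 1
      omega
  have h3 : (2 * D').choose D' ≤ m.choose D' := Nat.choose_le_choose D' h1
  have h4 := Nat.four_pow_le_two_mul_self_mul_centralBinom D' h0
  rw [Nat.centralBinom_eq_two_mul_choose] at h4
  have hm : (0 : ℝ) < m := by
    have : 0 < m := by omega
    exact_mod_cast this
  rw [div_le_iff₀ hm, e1]
  have h5 : (4 : ℝ) ^ D' ≤ 2 * D' * (2 * D').choose D' := by exact_mod_cast h4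
  have h6 : ((2 : ℝ) ^ (2 * D' : ℝ)) = 4 ^ D' := by
    rw [Real.rpow_mul (by norm_num), Real.rpow_natCast]
    norm_num
  rw [h6]
  refine h5.trans ?_
  rw [mul_comm]
  have h7 : ((2 * D').choose D' : ℝ) ≤ m.choose D' := by exact_mod_cast h3
  have h8 : (2 * D' : ℝ) ≤ m := by exact_mod_cast h1
  exact mul_le_mul h7 h8 (by positivity) (by positivity)

theorem small (κ : ℝ) (hκ : 0 < κ) : ∀ᶠ m : ℕ in atTop, (m : ℝ) ≤ 2 ^ (κ / 2 * m) := by
  have h := (isLittleO_pow_exp_pos_mul_atTop 1 (b := κ / 2 * Real.log 2) (by positivity)).def (c := 1) one_pos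
  have h2 := tendsto_natCast_atTop_atTop.eventually h
  filter_upwards [h2] with m hm
  simp only [pow_one, one_mul, Real.norm_eq_abs, Nat.abs_cast, Real.abs_exp] at hm
  rw [Real.rpow_def_of_pos (by norm_num)]
  refine hm.trans (Real.exp_le_exp.2 (le_of_eq (by ring)))

theorem t_NUM : S_NUM := by
  intro κ hκ
  refine ⟨min (κ / 2) (1 / 2), by positivity, ?_⟩
  filter_upwards [small κ hκ, eventually_gt_atTop 0] with m hm h0 D hD
  have hm0 : (0 : ℝ) < m := by exact_mod_cast h0
  rw [count]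
  rw [abs_le] at hD
  obtain ⟨hD1, hD2⟩ := hD
  set k := min (κ / 2) (1 / 2) with hk
  have k1 : k ≤ κ / 2 := min_le_left _ _
  have k2 : k ≤ 1 / 2 := min_le_right _ _
  have k1m := mul_le_mul_of_nonneg_right k1 hm0.le
  have k2m := mul_le_mul_of_nonneg_right k2 hm0.le
  have key : ∀ D' : ℕ, (m : ℝ) - k * m ≤ 2 * D' → 2 * D' ≤ m → (D' = D ∨ D' + D = m) → (2 : ℝ) ^ ((1 - κ) * m) ≤ m.choose D := by
    intro D' a1 a2 a3
    have a4 : 0 < D' := by
      by_contra hc
      have : D' = 0 := by omega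
      rw [this] at a1
      simp at a1
      nlinarith
    refine le_trans ?_ (central m D' D a4 a2 a3)
    rw [le_div_iff₀ hm0]
    calc (2 : ℝ) ^ ((1 - κ) * m) * m ≤ 2 ^ ((1 - κ) * m) * 2 ^ (κ / 2 * m) := by gcongr
      _ = 2 ^ ((1 - κ) * m + κ / 2 * m) := by rw [Real.rpow_add (by norm_num)]
      _ ≤ 2 ^ (2 * D' : ℝ) := by
        apply Real.rpow_le_rpow_of_exponent_le (by norm_num)
        nlinarith
  rcases le_total (2 * D) m with h | h
  · exact key D (by linarith) h (Or.inl rfl)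
  · have hDm : D ≤ m := by
      have : (D : ℝ) ≤ m := by nlinarith
      exact_mod_cast this
    refine key (m - D) ?_ (by omega) (Or.inr (by omega))
    rw [Nat.cast_sub hDm]
    linarith

end Pool.Agent.J4H86.SI
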